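import Pool.Agent.H578.CM.M16

set_option autoImplicit false

/-!
# `Z_p(-16)` modulo `p²`
-/

open Finset

namespace Pool.Agent.Results.MP_b66c90_nt.FranelMinusSixteen

/-- the Franel numbers -/
def f (n : ℕ) : ℕ := ∑ k ∈ range (n + 1), (n.choose k) ^ 3

/-- the sum `Z_p(m) = ∑_{n<p} C(2n,n) f_n m^{-n}` -/
def Z (p : ℕ) (m : ℤ) : ℚ := ∑ n ∈ range p, ((2 * n).choose n : ℚ) * (f n : ℚ) / (m : ℚ) ^ n

/-- congruence modulo `p²` of rational numbers: `(a - b) / p²` has denominator prime to `p` -/
def Cong (p : ℕ) (a b : ℚ) : Prop := p.Coprime ((a - b) / (p : ℚ) ^ 2).den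

theorem jac (x y : ℤ) (hx : x % 3 ≠ 0) :
    ((x + y) % 3 = 0 → jacobiSym (x * y) 3 = -1) ∧ ((x - y) % 3 = 0 → jacobiSym (x * y) 3 = 1) := by
  have hx' : x % 3 = 1 ∨ x % 3 = 2 := by omega
  constructor
  · intro h
    have : (x * y) % 3 = 2 := by
      rcases hx' with h1 | h1
      · have h2 : y % 3 = 2 := by omega
        rw [Int.mul_emod, h1, h2]; norm_num
      · have h2 : y % 3 = 1 := by omega
        rw [Int.mul_emod, h1, h2]; norm_num
    rw [jacobiSym.mod_left]
    have e : (x * y) % ((3 : ℕ) : ℤ) = 2 := this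
    rw [e]; norm_num
  · intro h
    have : (x * y) % 3 = 1 := by
      rcases hx' with h1 | h1
      · have h2 : y % 3 = 1 := by omega
        rw [Int.mul_emod, h1, h2]; norm_num
      · have h2 : y % 3 = 2 := by omega
        rw [Int.mul_emod, h1, h2]; norm_num
    rw [jacobiSym.mod_left]
    have e : (x * y) % ((3 : ℕ) : ℤ) = 1 := this
    rw [e]; norm_num

theorem sq2 (x : ℤ) : x ^ 2 % 2 = x % 2 := by
  rcases Int.emod_two_eq_zero_or_one x with h | h <;> simp [pow_two, Int.mul_emod, h]

theorem sq3 (x : ℤ) : x ^ 2 % 3 = 0 ∧ x % 3 = 0 ∨ x ^ 2 % 3 = 1 ∧ x % 3 ≠ 0 := by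
  have : x % 3 = 0 ∨ x % 3 = 1 ∨ x % 3 = 2 := by omega
  rcases this with h | h | h <;> simp [pow_two, Int.mul_emod, h]

theorem result (p : ℕ) (hp : p.Prime) (h2 : p ≠ 2) :
    (p % 12 = 1 → ∀ x y : ℤ, (p : ℤ) = x ^ 2 + y ^ 2 → 6 ∣ y → Cong p (Z p (-16)) (4 * (x : ℚ) ^ 2 - 2 * p)) ∧
    (p % 12 = 1 → ∀ x y : ℤ, (p : ℤ) = x ^ 2 + y ^ 2 → x % 6 = 3 →
      Cong p (Z p (-16)) (2 * p - 4 * (x : ℚ) ^ 2)) ∧
    (p % 12 = 5 → ∀ x y : ℤ, (p : ℤ) = x ^ 2 + y ^ 2 →
      Cong p (Z p (-16)) (4 * (jacobiSym (x * y) 3 : ℚ) * (x : ℚ) * (y : ℚ))) ∧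
    (p % 4 = 3 → Cong p (Z p (-16)) 0) := by
  have : Fact p.Prime := ⟨hp⟩
  have hp2 := hp.two_le
  rcases Nat.lt_or_ge 5 p with h5 | h5
  · have hM : ¬ (p : ℤ) ∣ (-16) := by
      rw [dvd_neg]
      have := Pool.Agent.H546.ndvd_of_primes p (n := 16) (l := [2, 2, 2, 2]) (by simp; norm_num)
        (by norm_num) (by simp; omega)
      exact_mod_cast this
    obtain ⟨wi, hwi⟩ := Pool.Agent.H546.inv_exists hM
    have tr : ∀ E : ℤ, Pool.Agent.H547.AA p wi = ((E : ℤ) : ZMod (p ^ 2)) → Cong p (Z p (-16)) (E : ℚ) := by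
      intro E hE
      have := Pool.Agent.H547.trA hM hwi E hE
      unfold Cong
      rw [Nat.Prime.coprime_iff_not_dvd hp]
      have e : Z p (-16) = ∑ k ∈ range p, ((k.centralBinom : ℚ) * (Pool.Agent.H547.fr k : ℚ)) /
          ((-16 : ℤ) : ℚ) ^ k := by
        unfold Z
        refine sum_congr rfl fun k _ => ?_
        rw [Nat.centralBinom]
        rfl
      rw [e]
      exact this
    obtain ⟨h1, h3, h4⟩ := Pool.Agent.H578.CM.M16.main p h5 hwi
    refine ⟨fun hc x y hxy hy => ?_, fun hc x y hxy hx => ?_, fun hc x y hxy => ?_, fun hc => ?_⟩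
    · obtain ⟨k, rfl⟩ := hy
      have := tr _ (h1 x (2 * k) hc (by rw [hxy]; ring))
      push_cast at this
      exact this
    · obtain ⟨k, hk⟩ : ∃ k, x = 3 * k := ⟨x / 3, by omega⟩
      have := tr _ (h1 y k hc (by rw [hxy, hk]; ring))
      push_cast at this
      have e : 4 * (y : ℚ) ^ 2 - 2 * p = 2 * p - 4 * (x : ℚ) ^ 2 := by
        have h := congrArg (Int.cast : ℤ → ℚ) hxy
        push_cast at h
        rw [h]; ring
      rw [← e]
      exact this
    · have e2 : (x + y) % 2 = 1 := by
        have a := sq2 x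
        have b := sq2 y
        omega
      have hx3 : x % 3 ≠ 0 ∧ y % 3 ≠ 0 := by
        have a := sq3 x
        have b := sq3 y
        omega
      obtain ⟨j1, j2⟩ := jac x y hx3.1
      have hcase : (x + y) % 3 = 0 ∨ (x - y) % 3 = 0 := by
        have a : x % 3 = 1 ∨ x % 3 = 2 := by omega
        have b : y % 3 = 1 ∨ y % 3 = 2 := by omega
        rcases a with a | a <;> rcases b with b | b
        · right; omega
        · left; omega
        · left; omega
        · right; omega
      rcases hcase with h | h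
      · obtain ⟨b, hb⟩ : ∃ b, x + y = 3 * b := ⟨(x + y) / 3, by omega⟩
        obtain ⟨a, ha⟩ : ∃ a, x - y = 2 * a + b := ⟨(x - y - b) / 2, by omega⟩
        have hx : x = a + 2 * b := by linarith
        have hy : y = b - a := by linarith
        have := tr _ (h3 a b hc (by rw [hxy, hx, hy]; ring))
        rw [j1 h]
        have e : ((2 * ((2 * a + b) ^ 2 - (p : ℤ)) : ℤ) : ℚ) = 4 * ((-1 : ℤ) : ℚ) * (x : ℚ) * (y : ℚ) := by
          rw [hxy, hx, hy]; push_cast; ring
        rw [e] at this
        exact this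
      · obtain ⟨b, hb⟩ : ∃ b, x - y = 3 * b := ⟨(x - y) / 3, by omega⟩
        obtain ⟨a, ha⟩ : ∃ a, x + y = 2 * a + b := ⟨(x + y - b) / 2, by omega⟩
        have hx : x = a + 2 * b := by linarith
        have hy : y = a - b := by linarith
        have := tr _ (h3 a b hc (by rw [hxy, hx, hy]; ring))
        rw [j2 h]
        have e : ((2 * ((2 * a + b) ^ 2 - (p : ℤ)) : ℤ) : ℚ) = 4 * ((1 : ℤ) : ℚ) * (x : ℚ) * (y : ℚ) := by
          rw [hxy, hx, hy]; push_cast; ring
        rw [e] at this
        exact this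
    · have := tr 0 (h4 hc)
      push_cast at this
      exact this
  · have hp35 : p = 3 ∨ p = 5 := by
      have : p ≠ 4 := by rintro rfl; exact absurd hp (by norm_num)
      omega
    rcases hp35 with rfl | rfl
    · refine ⟨fun hc => by omega, fun hc => by omega, fun hc => by omega, fun _ => ?_⟩
      have e : Z 3 (-16) = 63 / 64 := by
        unfold Z f
        simp only [sum_range_succ, sum_range_zero]
        norm_num [Nat.choose]
      unfold Cong
      rw [e]
      norm_num
    · refine ⟨fun hc => by omega, fun hc => by omega, fun _ x y hxy => ?_, fun hc => by omega⟩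
      have e : Z 5 (-16) = 17703 / 16384 := by
        unfold Z f
        simp only [sum_range_succ, sum_range_zero]
        norm_num [Nat.choose]
      replace hxy : 5 = x ^ 2 + y ^ 2 := by exact_mod_cast hxy
      have hx3 : x % 3 ≠ 0 ∧ y % 3 ≠ 0 := by
        have a := sq3 x
        have b := sq3 y
        omega
      obtain ⟨j1, j2⟩ := jac x y hx3.1
      have hb : x ^ 2 ≤ 5 := by nlinarith [sq_nonneg y]
      have hb' : y ^ 2 ≤ 5 := by nlinarith [sq_nonneg x]
      have x1 : x ≤ 2 := by nlinarith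
      have x2 : -2 ≤ x := by nlinarith
      have y1 : y ≤ 2 := by nlinarith
      have y2 : -2 ≤ y := by nlinarith
      have hcase : (x + y) % 3 = 0 ∨ (x - y) % 3 = 0 := by
        have a : x % 3 = 1 ∨ x % 3 = 2 := by omega
        have b : y % 3 = 1 ∨ y % 3 = 2 := by omega
        rcases a with a | a <;> rcases b with b | b
        · right; omega
        · left; omega
        · left; omega
        · right; omega
      have key : 4 * (jacobiSym (x * y) 3 : ℚ) * (x : ℚ) * (y : ℚ) = -8 := by
        clear e hb hb' hx3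
        rcases hcase with h | h
        · rw [j1 h]
          clear j1 j2
          interval_cases x <;> interval_cases y <;> first
            | (exfalso; revert hxy; decide)
            | (exfalso; revert h; decide)
            | norm_num
        · rw [j2 h]
          clear j1 j2
          interval_cases x <;> interval_cases y <;> first
            | (exfalso; revert hxy; decide)
            | (exfalso; revert h; decide)
            | norm_num
      unfold Cong
      rw [e, key]
      norm_num

end Pool.Agent.Results.MP_b66c90_nt.FranelMinusSixteen
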